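import Mathlib

namespace Pool.Agent.H.MP_f65ae4_nt

open Nat Finset

/-- odd double factorial `(2m-1)!!` -/
def O : ℕ → ℕ
  | 0 => 1
  | m + 1 => O m * (2 * m + 1)

lemma O_pos : ∀ m, 0 < O m
  | 0 => one_pos
  | m + 1 => Nat.mul_pos (O_pos m) (by omega)

lemma O_fact : ∀ m, (2 * m)! = 2 ^ m * m ! * O m
  | 0 => by simp [O]
  | m + 1 => by
    rw [show 2 * (m + 1) = 2 * m + 1 + 1 from by ring, factorial_succ, factorial_succ, O_fact m, O,
      factorial_succ]
    ring

lemma O_odd : ∀ m, O m % 2 = 1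
  | 0 => rfl
  | m + 1 => by rw [O, Nat.mul_mod, O_odd m]; omega

lemma two_div (q m : ℕ) (hq : q % 2 = 1) : 2 * m / q = m / q + (m + q / 2) / q := by
  have hq0 : 0 < q := by omega
  obtain ⟨C, r, hr, rfl⟩ : ∃ C r, r < q ∧ m = q * C + r :=
    ⟨m / q, m % q, Nat.mod_lt _ hq0, (Nat.div_add_mod m q).symm⟩
  have e1 : 2 * (q * C + r) = q * (2 * C) + 2 * r := by ring
  have e2 : q * C + r + q / 2 = q * C + (r + q / 2) := by ring
  rw [e1, e2, Nat.mul_add_div hq0, Nat.mul_add_div hq0, Nat.mul_add_div hq0, Nat.div_eq_of_lt hr]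
  rcases Nat.lt_or_ge (2 * r) q with h | h
  · rw [Nat.div_eq_of_lt h, Nat.div_eq_of_lt (by omega : r + q / 2 < q)]; omega
  · rw [Nat.div_eq_of_lt_le (k := 1) (by omega) (by omega),
      Nat.div_eq_of_lt_le (k := 1) (by omega : 1 * q ≤ r + q / 2) (by omega)]; omega

lemma vfact {p : ℕ} (hp : p.Prime) (m b : ℕ) (hb : m < b) :
    (m !).factorization p = ∑ i ∈ Ico 1 b, m / p ^ i :=
  Nat.factorization_factorial hp (lt_of_le_of_lt (Nat.log_le_self _ _) hb)

lemma vO {p : ℕ} (hp : p.Prime) (h2 : p ≠ 2) (m b : ℕ) (hb : 2 * m < b) :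
    (O m).factorization p = ∑ i ∈ Ico 1 b, (m + p ^ i / 2) / p ^ i := by
  have h1 := vfact hp (2 * m) b hb
  have h3 := vfact hp m b (by omega)
  rw [O_fact, Nat.factorization_mul (by positivity) (O_pos m).ne',
    Nat.factorization_mul (by positivity) (factorial_ne_zero m), Nat.factorization_pow] at h1
  simp only [Finsupp.add_apply, Finsupp.smul_apply, Nat.Prime.factorization Nat.prime_two,
    Finsupp.single_apply, if_neg (Ne.symm h2), smul_zero, zero_add, h3] at h1
  have h4 : ∑ i ∈ Ico 1 b, 2 * m / p ^ i = ∑ i ∈ Ico 1 b, m / p ^ i +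
      ∑ i ∈ Ico 1 b, (m + p ^ i / 2) / p ^ i := by
    rw [← sum_add_distrib]
    refine sum_congr rfl fun i _ => two_div _ _ ?_
    exact Nat.odd_iff.1 ((hp.odd_of_ne_two h2).pow)
  omega

lemma vO2 (m : ℕ) : (O m).factorization 2 = 0 :=
  Nat.factorization_eq_zero_of_not_dvd (by have := O_odd m; omega)

lemma v2fact_le (m : ℕ) : (m !).factorization 2 ≤ m := by
  have := Nat.factorization_factorial_le_div_pred Nat.prime_two m
  simpa using this

lemma v2fact_lt (m : ℕ) (hm : m ≠ 0) : (m !).factorization 2 < m := by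
  rw [Nat.factorization_def _ Nat.prime_two]
  exact padicValNat_factorial_lt_of_ne_zero 2 hm

lemma floor_ineq (q c j : ℕ) (hq : q % 2 = 1) (h3 : 3 ≤ q) :
    (c + 1 + q / 2) / q + (c + 2 + q / 2) / q + (c + j) / q + j / q ≤ (3 * c + 2 * j + 2 + q / 2) / q := by
  have hq0 : 0 < q := by omega
  obtain ⟨C, r, hr, rfl⟩ : ∃ C r, r < q ∧ c = q * C + r :=
    ⟨c / q, c % q, Nat.mod_lt _ hq0, (Nat.div_add_mod c q).symm⟩
  obtain ⟨J, s, hs, rfl⟩ : ∃ C r, r < q ∧ j = q * C + r :=
    ⟨j / q, j % q, Nat.mod_lt _ hq0, (Nat.div_add_mod j q).symm⟩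
  rw [show q * C + r + 1 + q / 2 = q * C + (r + 1 + q / 2) by ring,
    show q * C + r + 2 + q / 2 = q * C + (r + 2 + q / 2) by ring,
    show q * C + r + (q * J + s) = q * (C + J) + (r + s) by ring,
    show 3 * (q * C + r) + 2 * (q * J + s) + 2 + q / 2 = q * (3 * C + 2 * J) + (3 * r + 2 * s + 2 + q / 2)
      by ring]
  simp only [Nat.mul_add_div hq0, Nat.div_eq_of_lt hs]
  have e1 := Nat.div_mul_le_self (r + 1 + q / 2) q
  have e2 := Nat.div_mul_le_self (r + 2 + q / 2) q
  have e3 := Nat.div_mul_le_self (r + s) q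
  have b1 : (r + 1 + q / 2) / q < 2 := Nat.div_lt_of_lt_mul (by omega)
  have b2 : (r + 2 + q / 2) / q < 2 := Nat.div_lt_of_lt_mul (by omega)
  have b3 : (r + s) / q < 2 := Nat.div_lt_of_lt_mul (by omega)
  have key : (r + 1 + q / 2) / q + (r + 2 + q / 2) / q + (r + s) / q ≤
      (3 * r + 2 * s + 2 + q / 2) / q := by
    rw [Nat.le_div_iff_mul_le hq0]
    generalize (r + 1 + q / 2) / q = a1 at *
    generalize (r + 2 + q / 2) / q = a2 at *
    generalize (r + s) / q = a3 at *
    interval_cases a1 <;> interval_cases a2 <;> interval_cases a3 <;> omega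
  omega

lemma dvdZ (c j : ℕ) (h : 1 ≤ c + j) :
    4 * (O (c + 1) * O (c + 2) * (c + j)! * j !) ∣ 2 ^ (3 * c + 2 * j) * O (3 * c + 2 * j + 2) := by
  have o1 := (O_pos (c + 1)).ne'
  have o2 := (O_pos (c + 2)).ne'
  have o3 := (O_pos (3 * c + 2 * j + 2)).ne'
  have f1 := factorial_ne_zero (c + j)
  have f2 := factorial_ne_zero j
  refine (Nat.factorization_prime_le_iff_dvd (by positivity) (by positivity)).1 fun p hp => ?_
  rw [Nat.factorization_mul (by norm_num) (by positivity), Nat.factorization_mul (by positivity) f2,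
    Nat.factorization_mul (by positivity) f1, Nat.factorization_mul o1 o2,
    Nat.factorization_mul (by positivity) o3, show 4 = 2 ^ 2 from rfl, Nat.factorization_pow,
    Nat.factorization_pow]
  simp only [Finsupp.add_apply, Finsupp.smul_apply, Nat.Prime.factorization Nat.prime_two,
    Finsupp.single_apply]
  by_cases h2 : 2 = p
  · subst h2
    simp only [vO2, if_true, smul_eq_mul, mul_one]
    have a1 := v2fact_lt (c + j) (by omega)
    have a2 := v2fact_le j
    rcases Nat.eq_zero_or_pos c with rfl | hc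
    · have a3 := v2fact_lt j (by omega)
      simp only [zero_add] at *
      omega
    · omega
  · simp only [if_neg h2, smul_zero, zero_add]
    have h2' : p ≠ 2 := Ne.symm h2
    set b := 6 * c + 4 * j + 5
    rw [vO hp h2' _ b (by omega), vO hp h2' _ b (by omega), vO hp h2' _ b (by omega),
      vfact hp _ b (by omega), vfact hp _ b (by omega), ← sum_add_distrib, ← sum_add_distrib,
      ← sum_add_distrib]
    refine sum_le_sum fun i hi => floor_ineq _ _ _ (Nat.odd_iff.1 ((hp.odd_of_ne_two h2').pow)) ?_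
    have h3 : 3 ≤ p := by have := hp.two_le; omega
    calc 3 ≤ p ^ 1 := by simpa using h3
      _ ≤ p ^ i := Nat.pow_le_pow_right hp.pos (mem_Ico.1 hi).1

end Pool.Agent.H.MP_f65ae4_nt
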