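import Mathlib
import Pool.Agent.H.MP_f65ae4_nt.A

namespace Pool.Agent.H.MP_f65ae4_nt

open Nat Finset

def Cb (n : ℕ) : ℚ := 2 ^ n * O n / n !

lemma Cb_eq (n : ℕ) : ((2 * n).choose n : ℚ) = Cb n := by
  have h := Nat.add_choose_mul_factorial_mul_factorial n n
  rw [← two_mul, O_fact] at h
  have h' : ((2 * n).choose n : ℚ) * n ! * n ! = 2 ^ n * n ! * O n := by exact_mod_cast h
  unfold Cb
  have : (n ! : ℚ) ≠ 0 := by positivity
  field_simp
  field_simp at h'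
  linarith

lemma Opos (m : ℕ) : (0 : ℚ) < O m := by exact_mod_cast O_pos m
lemma Os (m : ℕ) : (O (m + 1) : ℚ) = O m * (2 * m + 1) := by rw [O]; push_cast; ring
lemma Fs (m : ℕ) : ((m + 1)! : ℚ) = (m + 1) * m ! := by rw [factorial_succ]; push_cast; ring
lemma Ch (a b : ℕ) : ((a + b).choose b : ℚ) = (a + b)! / (a ! * b !) := by
  have h : ((a + b).choose b : ℚ) * a ! * b ! = (a + b)! := by
    exact_mod_cast Nat.add_choose_mul_factorial_mul_factorial a b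
  rw [← h]; field_simp

/-- generic telescoping: a WZ-type pair turns `∑ c_k x^(n-1-k)` into `∑ T`. -/
lemma wz_sum (x : ℚ) (u : ℕ → ℚ) (T Phi : ℕ → ℕ → ℚ) (h0 : T 0 0 = u 0)
    (h1 : ∀ c j, T c (j + 1) - x * T c j = Phi c (j + 1) - Phi (c + 1) j)
    (h2 : ∀ c, T (c + 1) 0 = Phi (c + 1) 0) (h3 : ∀ n, Phi 0 (n + 1) = u (n + 1)) (n : ℕ) :
    ∑ k ∈ range (n + 1), u k * x ^ (n - k) = ∑ c ∈ range (n + 1), T c (n - c) := by
  induction n with
  | zero => simp [h0]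
  | succ n ih =>
    rw [sum_range_succ _ (n + 1), sum_range_succ _ (n + 1)]
    have e : ∑ k ∈ range (n + 1), u k * x ^ (n + 1 - k) =
        x * ∑ k ∈ range (n + 1), u k * x ^ (n - k) := by
      rw [mul_sum]
      refine sum_congr rfl fun k hk => ?_
      have := mem_range.1 hk
      rw [show n + 1 - k = (n - k) + 1 by omega, pow_succ]; ring
    have h : ∑ c ∈ range (n + 1), T c (n + 1 - c) - x * ∑ c ∈ range (n + 1), T c (n - c) =
        ∑ c ∈ range (n + 1), (Phi c (n + 1 - c) - Phi (c + 1) (n + 1 - (c + 1))) := by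
      rw [mul_sum, ← sum_sub_distrib]
      refine sum_congr rfl fun c hc => ?_
      have := mem_range.1 hc
      rw [show n + 1 - c = (n - c) + 1 by omega, h1, show n + 1 - (c + 1) = n - c by omega]
    rw [sum_range_sub' (fun c => Phi c (n + 1 - c))] at h
    simp only [Nat.sub_zero, Nat.sub_self] at h ⊢
    rw [e, ih, h2, ← h3]
    linarith

/-- generic Abel summation. -/
lemma abel_sum (V Y U : ℕ → ℕ → ℚ) (n : ℕ)
    (h1 : ∀ c j, c + j + 1 = n → V c (j + 1) - (Y (c + 1) j - Y c (j + 1)) = U c (j + 1))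
    (h2 : V n 0 + Y n 0 = U n 0) :
    ∑ c ∈ range (n + 1), V c (n - c) = - Y 0 n + ∑ c ∈ range (n + 1), U c (n - c) := by
  rw [sum_range_succ, sum_range_succ]
  have h := sum_range_sub (fun c => Y c (n - c)) n
  have h3 : ∑ c ∈ range n, V c (n - c) - ∑ c ∈ range n, (Y (c + 1) (n - (c + 1)) - Y c (n - c)) =
      ∑ c ∈ range n, U c (n - c) := by
    rw [← sum_sub_distrib]
    refine sum_congr rfl fun c hc => ?_
    obtain ⟨j, rfl⟩ : ∃ j, n = c + j + 1 := ⟨n - 1 - c, by have := mem_range.1 hc; omega⟩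
    rw [show c + j + 1 - c = j + 1 by omega, show c + j + 1 - (c + 1) = j by omega]
    exact h1 c j rfl
  rw [h] at h3
  simp only [Nat.sub_self, Nat.sub_zero] at h3 ⊢
  linarith

lemma int_sum {s : Finset ℕ} {f : ℕ → ℚ} (h : ∀ c ∈ s, ∃ z : ℤ, f c = z) :
    ∃ z : ℤ, ∑ c ∈ s, f c = z := by
  choose! z hz using h
  exact ⟨∑ c ∈ s, z c, by rw [sum_congr rfl hz]; push_cast; rfl⟩

lemma split (q n : ℕ) (hq : 0 < q) : ∃ N r, r < q ∧ n = q * N + r :=
  ⟨n / q, n % q, Nat.mod_lt _ hq, (Nat.div_add_mod n q).symm⟩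

lemma vsucc {p : ℕ} (hp : p.Prime) (m b : ℕ) (hb : m + 1 < b) :
    (m + 1).factorization p + ∑ i ∈ Ico 1 b, m / p ^ i = ∑ i ∈ Ico 1 b, (m + 1) / p ^ i := by
  rw [← vfact hp m b (by omega), ← vfact hp (m + 1) b hb, factorial_succ,
    Nat.factorization_mul (by omega) (factorial_ne_zero m)]
  rfl

/-- comparison of two sums over powers of a prime `p`, with one bad index and one good index. -/
lemma sum_le_bad_good {L R : ℕ → ℕ} {b j : ℕ} (hj1 : 2 ≤ j) (hj2 : j < b)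
    (h1 : L 1 ≤ R 1 + 1) (hj : L j + 1 ≤ R j) (h : ∀ i, 2 ≤ i → L i ≤ R i) :
    ∑ i ∈ Ico 1 b, L i ≤ ∑ i ∈ Ico 1 b, R i := by
  have m1 : 1 ∈ Ico 1 b := mem_Ico.2 ⟨le_rfl, by omega⟩
  have mj : j ∈ (Ico 1 b).erase 1 := mem_erase.2 ⟨by omega, mem_Ico.2 ⟨by omega, hj2⟩⟩
  rw [← add_sum_erase _ _ m1, ← add_sum_erase _ _ mj, ← add_sum_erase _ _ m1,
    ← add_sum_erase _ _ mj]
  have : ∑ i ∈ ((Ico 1 b).erase 1).erase j, L i ≤ ∑ i ∈ ((Ico 1 b).erase 1).erase j, R i := by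
    refine sum_le_sum fun i hi => h i ?_
    have a := (mem_erase.1 (mem_erase.1 hi).2)
    have := (mem_Ico.1 a.2).1
    have := a.1
    omega
  omega

lemma sum_eq_bad {L R : ℕ → ℕ} {b : ℕ} (hb : 1 < b)
    (h1 : L 1 = R 1 + 1) (h : ∀ i, 2 ≤ i → L i = R i) :
    ∑ i ∈ Ico 1 b, L i = ∑ i ∈ Ico 1 b, R i + 1 := by
  have m1 : 1 ∈ Ico 1 b := mem_Ico.2 ⟨le_rfl, hb⟩
  rw [← add_sum_erase _ _ m1, ← add_sum_erase _ _ m1]
  have : ∑ i ∈ ((Ico 1 b).erase 1), L i = ∑ i ∈ ((Ico 1 b).erase 1), R i := by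
    refine sum_congr rfl fun i hi => h i ?_
    have a := mem_erase.1 hi
    have := (mem_Ico.1 a.2).1
    have := a.1
    omega
  omega

end Pool.Agent.H.MP_f65ae4_nt
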