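import Mathlib
import Pool.Agent.H.MP_f65ae4_nt.B

namespace Pool.Agent.H.MP_f65ae4_nt

open Nat Finset

lemma floor_ineq2 (q c j : ℕ) (hq : q % 2 = 1) (h3 : 3 ≤ q) :
    (c + j + 2 + q / 2) / q + j / q + (3 * c + j + 2) / q + (c + j + 1) / q ≤
      (2 * c + j + 1 + q / 2) / q + (3 * c + 3 * j + 3) / q := by
  have hq0 : 0 < q := by omega
  obtain ⟨C, r, hr, rfl⟩ : ∃ C r, r < q ∧ c = q * C + r :=
    ⟨c / q, c % q, Nat.mod_lt _ hq0, (Nat.div_add_mod c q).symm⟩
  obtain ⟨J, s, hs, rfl⟩ : ∃ C r, r < q ∧ j = q * C + r :=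
    ⟨j / q, j % q, Nat.mod_lt _ hq0, (Nat.div_add_mod j q).symm⟩
  rw [show q * C + r + (q * J + s) + 2 + q / 2 = q * (C + J) + (r + s + 2 + q / 2) by ring,
    show 3 * (q * C + r) + (q * J + s) + 2 = q * (3 * C + J) + (3 * r + s + 2) by ring,
    show q * C + r + (q * J + s) + 1 = q * (C + J) + (r + s + 1) by ring,
    show 2 * (q * C + r) + (q * J + s) + 1 + q / 2 = q * (2 * C + J) + (2 * r + s + 1 + q / 2) by ring,
    show 3 * (q * C + r) + 3 * (q * J + s) + 3 = q * (3 * C + 3 * J) + (3 * r + 3 * s + 3) by ring]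
  simp only [Nat.mul_add_div hq0, Nat.div_eq_of_lt hs]
  have e1 := Nat.div_mul_le_self (r + s + 2 + q / 2) q
  have e2 := Nat.div_mul_le_self (3 * r + s + 2) q
  have e3 := Nat.div_mul_le_self (r + s + 1) q
  have e4 := Nat.lt_div_mul_add (a := 2 * r + s + 1 + q / 2) hq0
  have e5 := Nat.lt_div_mul_add (a := 3 * r + 3 * s + 3) hq0
  have b1 : (r + s + 2 + q / 2) / q < 3 := Nat.div_lt_of_lt_mul (by omega)
  have b2 : (3 * r + s + 2) / q < 4 := Nat.div_lt_of_lt_mul (by omega)
  have b3 : (r + s + 1) / q < 2 := Nat.div_lt_of_lt_mul (by omega)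
  have b4 : (2 * r + s + 1 + q / 2) / q < 4 := Nat.div_lt_of_lt_mul (by omega)
  have b5 : (3 * r + 3 * s + 3) / q < 6 := Nat.div_lt_of_lt_mul (by omega)
  have key : (r + s + 2 + q / 2) / q + (3 * r + s + 2) / q + (r + s + 1) / q ≤
      (2 * r + s + 1 + q / 2) / q + (3 * r + 3 * s + 3) / q := by
    generalize (r + s + 2 + q / 2) / q = a1 at *
    generalize (3 * r + s + 2) / q = a2 at *
    generalize (r + s + 1) / q = a3 at *
    generalize (2 * r + s + 1 + q / 2) / q = a4 at *
    generalize (3 * r + 3 * s + 3) / q = a5 at *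
    interval_cases a1 <;> interval_cases a2 <;> interval_cases a3 <;> interval_cases a4 <;>
      interval_cases a5 <;> omega
  omega

lemma dvdZ2 (c j : ℕ) (h : 1 ≤ c + j) :
    2 * (O (c + j + 2) * j ! * (3 * c + j + 2)! * (c + j + 1)!) ∣
      2 ^ c * O (2 * c + j + 1) * (3 * c + 3 * j + 3)! := by
  have o1 := (O_pos (c + j + 2)).ne'
  have o3 := (O_pos (2 * c + j + 1)).ne'
  have f1 := factorial_ne_zero (c + j + 1)
  have f2 := factorial_ne_zero j
  have f3 := factorial_ne_zero (3 * c + j + 2)
  have f4 := factorial_ne_zero (3 * c + 3 * j + 3)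
  refine (Nat.factorization_prime_le_iff_dvd (by positivity) (by positivity)).1 fun p hp => ?_
  rw [Nat.factorization_mul (by norm_num) (by positivity), Nat.factorization_mul (by positivity) f1,
    Nat.factorization_mul (by positivity) f3, Nat.factorization_mul o1 f2,
    Nat.factorization_mul (by positivity) f4, Nat.factorization_mul (by positivity) o3,
    Nat.factorization_pow]
  simp only [Finsupp.add_apply, Finsupp.smul_apply, Nat.Prime.factorization Nat.prime_two,
    Finsupp.single_apply]
  by_cases h2 : 2 = p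
  · subst h2
    simp only [vO2, if_true, smul_eq_mul, mul_one]
    have a1 := v2fact_lt (c + j) (by omega)
    have d1 : (2 * j)! * (3 * c + j + 2)! * (c + j + 1) ∣ (3 * c + 3 * j + 3)! := by
      have := Nat.factorial_mul_factorial_dvd_factorial_add (2 * j) (3 * c + j + 2)
      rw [show 3 * c + 3 * j + 3 = (2 * j + (3 * c + j + 2)) + 1 by ring, factorial_succ, mul_comm]
      exact Nat.mul_dvd_mul ⟨3, by omega⟩ this
    have d2 := (Nat.factorization_prime_le_iff_dvd (by positivity) f4).2 d1 2 Nat.prime_two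
    rw [O_fact, Nat.factorization_mul (by have := O_pos j; positivity) (by omega),
      Nat.factorization_mul (by have := O_pos j; positivity) f3,
      Nat.factorization_mul (by positivity) (O_pos j).ne',
      Nat.factorization_mul (by positivity) f2, Nat.factorization_pow] at d2
    rw [factorial_succ (c + j), Nat.factorization_mul (by omega) (factorial_ne_zero _)]
    simp only [Finsupp.add_apply, Finsupp.smul_apply, Nat.Prime.factorization Nat.prime_two,
      Finsupp.single_apply, vO2, if_true, smul_eq_mul, mul_one] at d2 ⊢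
    omega
  · simp only [if_neg h2, smul_zero, zero_add]
    have h2' : p ≠ 2 := Ne.symm h2
    set b := 6 * c + 4 * j + 5
    rw [vO hp h2' _ b (by omega), vO hp h2' _ b (by omega), vfact hp _ b (by omega),
      vfact hp _ b (by omega), vfact hp _ b (by omega), vfact hp _ b (by omega),
      ← sum_add_distrib, ← sum_add_distrib, ← sum_add_distrib, ← sum_add_distrib]
    refine sum_le_sum fun i hi => floor_ineq2 _ _ _ (Nat.odd_iff.1 ((hp.odd_of_ne_two h2').pow)) ?_
    have h3 : 3 ≤ p := by have := hp.two_le; omega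
    calc 3 ≤ p ^ 1 := by simpa using h3
      _ ≤ p ^ i := Nat.pow_le_pow_right hp.pos (mem_Ico.1 hi).1

lemma dvdE (c j : ℕ) (h : 1 ≤ c + j) :
    2 * (O (c + 1) * (c + j)!) ∣ 2 ^ (c + j) * O (2 * c + j + 1) := by
  have o1 := (O_pos (c + 1)).ne'
  have o3 := (O_pos (2 * c + j + 1)).ne'
  have f1 := factorial_ne_zero (c + j)
  refine (Nat.factorization_prime_le_iff_dvd (by positivity) (by positivity)).1 fun p hp => ?_
  rw [Nat.factorization_mul (by norm_num) (by positivity), Nat.factorization_mul o1 f1,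
    Nat.factorization_mul (by positivity) o3, Nat.factorization_pow]
  simp only [Finsupp.add_apply, Finsupp.smul_apply, Nat.Prime.factorization Nat.prime_two,
    Finsupp.single_apply]
  by_cases h2 : 2 = p
  · subst h2
    simp only [vO2, if_true, smul_eq_mul, mul_one]
    have a1 := v2fact_lt (c + j) (by omega)
    omega
  · simp only [if_neg h2, smul_zero, zero_add]
    have h2' : p ≠ 2 := Ne.symm h2
    set b := 6 * c + 4 * j + 5
    rw [vO hp h2' _ b (by omega), vO hp h2' _ b (by omega), vfact hp _ b (by omega),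
      ← sum_add_distrib]
    refine sum_le_sum fun i _ => ?_
    rw [show 2 * c + j + 1 + p ^ i / 2 = (c + 1 + p ^ i / 2) + (c + j) by ring]
    exact Nat.div_add_div_le_add_div

end Pool.Agent.H.MP_f65ae4_nt
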